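import Pool.Agent.H5.EF.Stm

/-! Crew EF: parts BD, NDZ, PPP. -/

set_option autoImplicit false

open Set Filter Topology

namespace H10.EF

open H5.EF

/-- the energy -/
noncomputable def en (p : ℝ) (u v : ℝ → ℝ) (r : ℝ) : ℝ :=
  v r ^ 2 / 2 + |u r| ^ (p + 1) / (p + 1)

lemma en_deriv (hFD : S_FD) {m : ℕ} {p γ R : ℝ} {u v : ℝ → ℝ} (hp : 1 < p)
    (h : NL m p γ R u v) {r : ℝ} (hr : r ∈ Ioo 0 R) :
    HasDerivAt (en p u v) (-(hh m r * v r ^ 2)) r := by
  have h1 := h.dy r hr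
  have h2 := h.dz r hr
  have h3 := ((hFD p hp).2.1 (u r)).comp r h1
  have h4 := ((h2.pow 2).div_const 2).add (h3.div_const (p + 1))
  have hp1 : p + 1 ≠ 0 := by linarith
  refine h4.congr_deriv ?_
  simp only [Nat.cast_ofNat, Nat.add_one_sub_one, pow_one]
  field_simp
  ring

lemma en_cont {m : ℕ} {p γ R : ℝ} {u v : ℝ → ℝ} (hp : 1 < p)
    (h : NL m p γ R u v) : ContinuousOn (en p u v) (Icc 0 R) := by
  unfold en
  refine ((h.cz.pow 2).div_const 2).add (ContinuousOn.div_const ?_ _)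
  exact h.cy.abs.rpow_const (fun x _ => Or.inr (by linarith))

theorem t_BD (hFD : S_FD) : S_BD := by
  intro m p γ R u v hm hp hγ h r hr
  have h0 : (0 : ℝ) ≤ R := hr.1.trans hr.2
  have han : AntitoneOn (en p u v) (Icc 0 R) := by
    refine antitoneOn_of_deriv_nonpos (convex_Icc 0 R) (en_cont hp h) ?_ ?_
    · rw [interior_Icc]
      intro x hx
      exact (en_deriv hFD hp h hx).differentiableAt.differentiableWithinAt
    · rw [interior_Icc]
      intro x hx
      rw [(en_deriv hFD hp h hx).deriv]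
      have := mul_nonneg (hh_nonneg (m := m) hx.1) (sq_nonneg (v x))
      linarith
  have h1 := han ⟨le_rfl, h0⟩ hr hr.1
  unfold en at h1
  rw [h.y0, h.z0, abs_of_nonneg hγ] at h1
  have hp1 : 0 < p + 1 := by linarith
  have h2 : |u r| ^ (p + 1) ≤ γ ^ (p + 1) := by
    have h3 : |u r| ^ (p + 1) / (p + 1) ≤ γ ^ (p + 1) / (p + 1) := by
      have := sq_nonneg (v r)
      norm_num at h1
      linarith
    exact (div_le_div_iff_of_pos_right hp1).mp h3
  exact (Real.rpow_le_rpow_iff (abs_nonneg _) hγ hp1).mp h2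

lemma pos_near {m : ℕ} {p γ R : ℝ} {u v : ℝ → ℝ} (hγ : 0 < γ) (hR : 0 < R)
    (h : NL m p γ R u v) : ∃ δ, 0 < δ ∧ δ < R ∧ ∀ x, 0 ≤ x → x ≤ δ → 0 < u x := by
  have h1 : ContinuousWithinAt u (Icc 0 R) 0 := h.cy 0 ⟨le_rfl, hR.le⟩
  have h2 : ∀ᶠ x in 𝓝[Icc 0 R] 0, 0 < u x := by
    apply h1.eventually_const_lt
    rw [h.y0]; exact hγ
  rw [eventually_nhdsWithin_iff, Metric.eventually_nhds_iff] at h2
  obtain ⟨ε, hε, h3⟩ := h2
  refine ⟨min (ε / 2) (R / 2), lt_min (by linarith) (by linarith),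
    lt_of_le_of_lt (min_le_right _ _) (by linarith), fun x hx0 hx => ?_⟩
  apply h3
  · rw [Real.dist_eq, sub_zero, abs_of_nonneg hx0]
    have := min_le_left (ε / 2) (R / 2)
    linarith
  · have := min_le_right (ε / 2) (R / 2)
    exact ⟨hx0, by linarith⟩

lemma g2e_deriv (hFD : S_FD) {m : ℕ} {p γ R : ℝ} {u v : ℝ → ℝ} (hp : 1 < p)
    (h : NL m p γ R u v) {r : ℝ} (hr : r ∈ Ioo 0 R) :
    HasDerivAt (fun r => gg m r ^ 2 * en p u v r)
      (2 * gg m r ^ 2 * hh m r * (|u r| ^ (p + 1) / (p + 1))) r := by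
  have h1 := ((gg_deriv (m := m) hr.1).pow 2).mul (en_deriv hFD hp h hr)
  refine h1.congr_deriv ?_
  simp only [Nat.cast_ofNat, Nat.add_one_sub_one, pow_one]
  unfold en
  simp only [Pi.pow_apply]
  ring

theorem t_NDZ (hFD : S_FD) : S_NDZ := by
  intro m p γ R u v hm hp hγ h r hr hu hv
  have hR : 0 < R := hr.1.trans hr.2
  obtain ⟨δ, hδ, hδR, hpos⟩ := pos_near hγ hR h
  have hδr : δ < r := by
    by_contra hcon
    push Not at hcon
    have := hpos r hr.1.le hcon
    linarith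
  have hp1 : 0 < p + 1 := by linarith
  have hmono : MonotoneOn (fun r => gg m r ^ 2 * en p u v r) (Icc δ r) := by
    refine monotoneOn_of_deriv_nonneg (convex_Icc δ r) ?_ ?_ ?_
    · intro x hx
      exact (g2e_deriv hFD hp h ⟨hδ.trans_le hx.1, hx.2.trans_lt hr.2⟩).continuousAt.continuousWithinAt
    · rw [interior_Icc]
      intro x hx
      exact (g2e_deriv hFD hp h ⟨hδ.trans hx.1, hx.2.trans hr.2⟩).differentiableAt.differentiableWithinAt
    · rw [interior_Icc]
      intro x hx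
      rw [(g2e_deriv hFD hp h ⟨hδ.trans hx.1, hx.2.trans hr.2⟩).deriv]
      have h1 := hh_nonneg (m := m) (hδ.trans hx.1)
      positivity
  have h1 := hmono (left_mem_Icc.2 hδr.le) (right_mem_Icc.2 hδr.le) hδr.le
  have h2 : 0 < gg m δ ^ 2 * en p u v δ := by
    have h3 := gg_pos (m := m) hδ
    have h4 : 0 < |u δ| := abs_pos.2 (hpos δ hδ.le le_rfl).ne'
    unfold en
    have h5 : 0 < |u δ| ^ (p + 1) / (p + 1) := by positivity
    have h6 := sq_nonneg (v δ)
    positivity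
  have h3 : gg m r ^ 2 * en p u v r = 0 := by
    unfold en
    rw [hu, hv, abs_zero, Real.zero_rpow hp1.ne']
    norm_num
  simp only at h1
  linarith

theorem t_PPP (hPD : S_PD) (hNDZ : S_NDZ) : S_PPP := by
  intro m p γ R r0 s u v hm hp hγ hs h hr0 hr0R hu0 x hx hxr
  have hR : 0 < R := hr0.trans hr0R
  have hp1 : 0 < p + 1 := by linarith
  have hv0 : v r0 ≠ 0 := hNDZ m p γ R u v hm hp hγ h r0 ⟨hr0, hr0R⟩ hu0
  have hP0 : 0 < PP m p s u v r0 := by
    unfold PP
    rw [hu0, abs_zero, Real.zero_rpow hp1.ne']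
    have h1 := gg_pos (m := m) hr0
    have h2 := hs.pos r0 hr0
    have h3 : 0 < v r0 ^ 2 := by positivity
    have : gg m r0 * (gg m r0 * s r0 * (v r0 ^ 2 + 2 / (p + 1) * 0) + 0 * v r0) =
      gg m r0 * (gg m r0 * s r0 * v r0 ^ 2) := by ring
    rw [this]
    positivity
  rcases hxr.eq_or_lt with hxe | hxlt
  · rw [hxe]; exact hP0
  by_contra hcon
  push Not at hcon
  have hder : ∀ y, 0 < y → y < R → HasDerivAt (PP m p s u v)
      (gg m y * |u y| ^ (p + 1) * (4 * (gg m y * hh m y * s y - 1) - (p - 1)) / (p + 1)) y :=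
    fun y h1 h2 => hPD m p γ R s u v hm hp hs h y ⟨h1, h2⟩
  -- mean value theorem
  obtain ⟨z, hz, hz'⟩ := exists_hasDerivAt_eq_slope (PP m p s u v)
    (fun y => gg m y * |u y| ^ (p + 1) * (4 * (gg m y * hh m y * s y - 1) - (p - 1)) / (p + 1))
    hxlt (fun y hy => (hder y (hx.trans_le hy.1) (hy.2.trans_lt hr0R)).continuousAt.continuousWithinAt)
    (fun y hy => hder y (hx.trans hy.1) (hy.2.trans hr0R))
  have hz0 : 0 < z := hx.trans hz.1
  have hzR : z < R := hz.2.trans hr0R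
  have hqz : 0 < 4 * (gg m z * hh m z * s z - 1) - (p - 1) := by
    have h1 : 0 < (PP m p s u v r0 - PP m p s u v x) / (r0 - x) :=
      div_pos (by linarith) (by linarith)
    rw [← hz'] at h1
    by_contra hneg
    push Not at hneg
    have h2 : 0 ≤ gg m z * |u z| ^ (p + 1) :=
      mul_nonneg (gg_pos hz0).le (Real.rpow_nonneg (abs_nonneg _) _)
    have h3 := mul_nonpos_of_nonneg_of_nonpos h2 hneg
    have h4 := div_nonpos_of_nonpos_of_nonneg h3 hp1.le
    linarith
  -- K is decreasing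
  have hKanti : StrictAntiOn (fun r => gg m r * hh m r * s r) (Ioi 0) := by
    refine strictAntiOn_of_deriv_neg (convex_Ioi 0) ?_ ?_
    · intro y hy
      exact (K_deriv hs hy).continuousAt.continuousWithinAt
    · rw [interior_Ioi]
      intro y hy
      rw [(K_deriv hs hy).deriv]
      have := hs.dec y hy
      linarith
  have hq : ∀ y, 0 < y → y ≤ z → 0 < 4 * (gg m y * hh m y * s y - 1) - (p - 1) := by
    intro y hy hyz
    have h1 : gg m z * hh m z * s z ≤ gg m y * hh m y * s y :=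
      hKanti.antitoneOn (mem_Ioi.2 hy) (mem_Ioi.2 hz0) hyz
    linarith
  have hmono : ∀ a b, 0 < a → a ≤ b → b ≤ z → PP m p s u v a ≤ PP m p s u v b := by
    intro a b ha hab hbz
    have hm1 : MonotoneOn (PP m p s u v) (Icc a b) := by
      refine monotoneOn_of_deriv_nonneg (convex_Icc a b) ?_ ?_ ?_
      · intro y hy
        exact (hder y (ha.trans_le hy.1) (hy.2.trans_lt (hbz.trans_lt hzR))).continuousAt.continuousWithinAt
      · rw [interior_Icc]
        intro y hy
        exact (hder y (ha.trans hy.1) (hy.2.trans (hbz.trans_lt hzR))).differentiableAt.differentiableWithinAt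
      · rw [interior_Icc]
        intro y hy
        have hy0 := ha.trans hy.1
        rw [(hder y hy0 (hy.2.trans (hbz.trans_lt hzR))).deriv]
        have h1 := hq y hy0 (hy.2.le.trans hbz)
        have h2 := gg_pos (m := m) hy0
        have h3 : 0 ≤ |u y| ^ (p + 1) := Real.rpow_nonneg (abs_nonneg _) _
        positivity
    exact hm1 (left_mem_Icc.2 hab) (right_mem_Icc.2 hab) hab
  obtain ⟨δ', hδ', hδ'R, hpos⟩ := pos_near hγ hR h
  set δ := min δ' x with hδdef
  have hδ : 0 < δ := lt_min hδ' hx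
  have hδx : δ ≤ x := min_le_right _ _
  have hδ1 : δ ≤ δ' := min_le_left _ _
  have hδz : δ ≤ z := hδx.trans hz.1.le
  have hstr : PP m p s u v (δ / 2) < PP m p s u v δ := by
    have hm1 : StrictMonoOn (PP m p s u v) (Icc (δ / 2) δ) := by
      refine strictMonoOn_of_deriv_pos (convex_Icc _ _) ?_ ?_
      · intro y hy
        exact (hder y ((half_pos hδ).trans_le hy.1)
          (hy.2.trans_lt (hδz.trans_lt hzR))).continuousAt.continuousWithinAt
      · rw [interior_Icc]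
        intro y hy
        have hy0 := (half_pos hδ).trans hy.1
        rw [(hder y hy0 (hy.2.trans (hδz.trans_lt hzR))).deriv]
        have h1 := hq y hy0 (hy.2.le.trans hδz)
        have h2 := gg_pos (m := m) hy0
        have h4 : 0 < |u y| := abs_pos.2 (hpos y hy0.le (hy.2.le.trans hδ1)).ne'
        have h3 : 0 < |u y| ^ (p + 1) := Real.rpow_pos_of_pos h4 _
        positivity
    exact hm1 (left_mem_Icc.2 (by linarith)) (right_mem_Icc.2 (by linarith)) (by linarith)
  have hδP : PP m p s u v δ ≤ 0 := (hmono δ x hδ hδx hz.1.le).trans hcon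
  -- the limit at zero
  have hlim : Tendsto (PP m p s u v) (𝓝[>] 0) (𝓝 0) := by
    have hsub : 𝓝[>] (0 : ℝ) ≤ 𝓝[Icc 0 R] 0 := by
      refine le_trans (le_of_eq (nhdsWithin_Ioo_eq_nhdsGT hR).symm) ?_
      exact nhdsWithin_mono _ Ioo_subset_Icc_self
    have hu : Tendsto u (𝓝[>] 0) (𝓝 (u 0)) := (h.cy 0 ⟨le_rfl, hR.le⟩).mono_left hsub
    have hv : Tendsto v (𝓝[>] 0) (𝓝 (v 0)) := (h.cz 0 ⟨le_rfl, hR.le⟩).mono_left hsub
    have hg : Tendsto (gg m) (𝓝[>] 0) (𝓝 0) := by
      have h1 : Tendsto (gg m) (𝓝[>] 0) (𝓝 (gg m 0)) :=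
        ((gg_cont m).tendsto 0).mono_left nhdsWithin_le_nhds
      have h2 : gg m 0 = 0 := by
        unfold gg
        rw [Real.sinh_zero, zero_pow (by omega)]
      rwa [h2] at h1
    have hU : Tendsto (fun r => |u r| ^ (p + 1)) (𝓝[>] 0) (𝓝 (|u 0| ^ (p + 1))) :=
      hu.abs.rpow_const (Or.inr hp1.le)
    have h1 := hg.mul ((hs.lim.mul ((hv.pow 2).add (hU.const_mul (2 / (p + 1))))).add (hu.mul hv))
    rw [zero_mul] at h1
    exact h1
  have hge : ∀ᶠ y in 𝓝[>] (0 : ℝ), PP m p s u v y ≤ PP m p s u v (δ / 2) := by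
    have : Ioo (0 : ℝ) (δ / 2) ∈ 𝓝[>] (0 : ℝ) := Ioo_mem_nhdsGT (half_pos hδ)
    filter_upwards [this] with y hy
    exact hmono y (δ / 2) hy.1 hy.2.le (by linarith)
  have := le_of_tendsto hlim hge
  linarith

end H10.EF
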